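import Pool.Agent.H773.LK.Spec2

/-!
# DOP: the multiplication operators `(w + M)^{-1/2}`
-/

set_option autoImplicit false

noncomputable section

namespace Pool.Agent.H597.LK

open MeasureTheory Filter Topology Set
open scoped ENNReal NNReal ComplexConjugate InnerProductSpace
open Pool.Agent.H773.LK

section mul

variable {α : Type} [MeasurableSpace α] {μ : Measure α}

theorem memLp_mul (b : α → ℂ) (C : ℝ) (hb : Measurable b) (hC : ∀ x, ‖b x‖ ≤ C)
    (v : Lp ℂ 2 μ) : MemLp (fun x => b x * v x) 2 μ := by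
  refine (Lp.memLp v).of_le_mul (c := C) ?_ ?_
  · exact hb.aestronglyMeasurable.mul (Lp.aestronglyMeasurable v)
  · refine Eventually.of_forall fun x => ?_
    rw [norm_mul]
    exact mul_le_mul_of_nonneg_right (hC x) (norm_nonneg _)

/-- multiplication by a bounded measurable function -/
def mop (b : α → ℂ) (C : ℝ) (hb : Measurable b) (hC : ∀ x, ‖b x‖ ≤ C) :
    Lp ℂ 2 μ →L[ℂ] Lp ℂ 2 μ :=
  LinearMap.mkContinuous
    { toFun := fun v => (memLp_mul b C hb hC v).toLp _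
      map_add' := fun u v => by
        apply Lp.ext
        filter_upwards [(memLp_mul b C hb hC (u + v)).coeFn_toLp,
          (memLp_mul b C hb hC u).coeFn_toLp, (memLp_mul b C hb hC v).coeFn_toLp,
          Lp.coeFn_add u v, Lp.coeFn_add ((memLp_mul b C hb hC u).toLp _)
            ((memLp_mul b C hb hC v).toLp _)] with x h1 h2 h3 h4 h5
        rw [h1, h5, Pi.add_apply, h2, h3, h4, Pi.add_apply, mul_add]
      map_smul' := fun c v => by
        apply Lp.ext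
        filter_upwards [(memLp_mul b C hb hC (c • v)).coeFn_toLp,
          (memLp_mul b C hb hC v).coeFn_toLp,
          Lp.coeFn_smul c v, Lp.coeFn_smul c ((memLp_mul b C hb hC v).toLp _)] with x h1 h2 h3 h4
        rw [h1, RingHom.id_apply, h4, Pi.smul_apply, h2, h3, Pi.smul_apply, smul_eq_mul,
          smul_eq_mul]
        ring } C (fun v => by
    apply Lp.norm_le_mul_norm_of_ae_le_mul
    filter_upwards [(memLp_mul b C hb hC v).coeFn_toLp] with x h1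
    show ‖((memLp_mul b C hb hC v).toLp _ : α → ℂ) x‖ ≤ C * ‖v x‖
    rw [h1, norm_mul]
    exact mul_le_mul_of_nonneg_right (hC x) (norm_nonneg _))

theorem mop_ae (b : α → ℂ) (C : ℝ) (hb : Measurable b) (hC : ∀ x, ‖b x‖ ≤ C) (v : Lp ℂ 2 μ) :
    (mop b C hb hC v : α → ℂ) =ᵐ[μ] fun x => b x * v x :=
  (memLp_mul b C hb hC v).coeFn_toLp

theorem norm_mop_le (b : α → ℂ) (C : ℝ) (hb : Measurable b) (hC : ∀ x, ‖b x‖ ≤ C)
    (hC0 : 0 ≤ C) : ‖(mop b C hb hC : Lp ℂ 2 μ →L[ℂ] Lp ℂ 2 μ)‖ ≤ C :=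
  LinearMap.mkContinuous_norm_le _ hC0 _

theorem mop_sa (b : α → ℂ) (C : ℝ) (hb : Measurable b) (hC : ∀ x, ‖b x‖ ≤ C)
    (hr : ∀ x, conj (b x) = b x) :
    IsSelfAdjoint (mop b C hb hC : Lp ℂ 2 μ →L[ℂ] Lp ℂ 2 μ) := by
  rw [ContinuousLinearMap.isSelfAdjoint_iff_isSymmetric]
  intro u v
  show ⟪mop b C hb hC u, v⟫_ℂ = ⟪u, mop b C hb hC v⟫_ℂ
  rw [L2.inner_def, L2.inner_def]
  apply integral_congr_ae
  filter_upwards [mop_ae b C hb hC u, mop_ae b C hb hC v] with x h1 h2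
  rw [h1, h2, RCLike.inner_apply, RCLike.inner_apply, map_mul, hr]
  ring

theorem mop_inj (b : α → ℂ) (C : ℝ) (hb : Measurable b) (hC : ∀ x, ‖b x‖ ≤ C)
    (h0 : ∀ x, b x ≠ 0) :
    Function.Injective (mop b C hb hC : Lp ℂ 2 μ →L[ℂ] Lp ℂ 2 μ) := by
  rw [injective_iff_map_eq_zero]
  intro v hv
  apply Lp.ext
  filter_upwards [mop_ae b C hb hC v, Lp.coeFn_zero ℂ 2 μ] with x h1 h2
  rw [hv, h2, Pi.zero_apply] at h1
  rw [h2, Pi.zero_apply]
  exact (mul_eq_zero.1 h1.symm).resolve_left (h0 x)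

theorem norm_mop_sub_le (b b' : α → ℂ) (C C' K : ℝ) (hb : Measurable b) (hC : ∀ x, ‖b x‖ ≤ C)
    (hb' : Measurable b') (hC' : ∀ x, ‖b' x‖ ≤ C') (hK : 0 ≤ K)
    (h : ∀ x, ‖b x - b' x‖ ≤ K) :
    ‖(mop b C hb hC : Lp ℂ 2 μ →L[ℂ] Lp ℂ 2 μ) - mop b' C' hb' hC'‖ ≤ K := by
  refine ContinuousLinearMap.opNorm_le_bound _ hK fun v => ?_
  apply Lp.norm_le_mul_norm_of_ae_le_mul
  rw [ContinuousLinearMap.sub_apply]
  filter_upwards [mop_ae b C hb hC v, mop_ae b' C' hb' hC' v,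
    Lp.coeFn_sub (mop b C hb hC v) (mop b' C' hb' hC' v)] with x h1 h2 h3
  rw [h3, Pi.sub_apply, h1, h2, ← sub_mul, norm_mul]
  exact mul_le_mul_of_nonneg_right (h x) (norm_nonneg _)

end mul

theorem ww_meas (β θ : ℝ) : Measurable (ww β θ) := by
  unfold ww
  have h1 : Measurable fun ξ : ℤ × ℝ => ((ξ.1 : ℤ) : ℝ) :=
    (measurable_of_countable (fun n : ℤ => (n : ℝ))).comp measurable_fst
  have h2 : Measurable fun ξ : ℤ × ℝ => ξ.2 := measurable_snd
  fun_prop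

/-- the symbol `(w + M)^{-1/2}` -/
def sy (β M θ : ℝ) (ξ : ℤ × ℝ) : ℂ := ((1 / √(ww β θ ξ + M) : ℝ) : ℂ)

theorem sy_meas (β M θ : ℝ) : Measurable (sy β M θ) := by
  unfold sy
  have := ww_meas β θ
  exact Complex.measurable_ofReal.comp (measurable_const.div ((this.add_const M).sqrt))

theorem ww_nonneg (β θ : ℝ) (ξ : ℤ × ℝ) : 0 ≤ ww β θ ξ := by
  unfold ww
  positivity

theorem sy_norm (β M θ : ℝ) (hM : 0 < M) (ξ : ℤ × ℝ) : ‖sy β M θ ξ‖ ≤ 1 / √M := by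
  unfold sy
  have h := ww_nonneg β θ ξ
  rw [Complex.norm_real, Real.norm_eq_abs, abs_of_nonneg (by positivity)]
  apply one_div_le_one_div_of_le (Real.sqrt_pos.2 hM)
  exact Real.sqrt_le_sqrt (by linarith)

theorem sy_ne (β M θ : ℝ) (hM : 0 < M) (ξ : ℤ × ℝ) : sy β M θ ξ ≠ 0 := by
  unfold sy
  have h := ww_nonneg β θ ξ
  have h1 : 0 < √(ww β θ ξ + M) := Real.sqrt_pos.2 (by linarith)
  exact_mod_cast (one_div_pos.2 h1).ne'

/-- `|(t² + c)^{-1/2} - (t'² + c)^{-1/2}| ≤ |t - t'| / M` for `c ≥ M` -/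
theorem inv_sqrt_lip (t t' c M : ℝ) (hM : 0 < M) (hc : M ≤ c) :
    |1 / √(t ^ 2 + c) - 1 / √(t' ^ 2 + c)| ≤ |t - t'| / M := by
  have hA0 : 0 < t ^ 2 + c := by nlinarith [sq_nonneg t]
  have hB0 : 0 < t' ^ 2 + c := by nlinarith [sq_nonneg t']
  have hA : 0 < √(t ^ 2 + c) := Real.sqrt_pos.2 hA0
  have hB : 0 < √(t' ^ 2 + c) := Real.sqrt_pos.2 hB0
  set a := √(t ^ 2 + c) with ha
  set b := √(t' ^ 2 + c) with hb
  have ha2 : a ^ 2 = t ^ 2 + c := Real.sq_sqrt hA0.le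
  have hb2 : b ^ 2 = t' ^ 2 + c := Real.sq_sqrt hB0.le
  have hta : |t| ≤ a := by
    apply abs_le_of_sq_le_sq _ hA.le
    rw [ha2]; linarith
  have htb : |t'| ≤ b := by
    apply abs_le_of_sq_le_sq _ hB.le
    rw [hb2]; linarith
  have hMa : √M ≤ a := Real.sqrt_le_sqrt (by nlinarith [sq_nonneg t])
  have hMb : √M ≤ b := Real.sqrt_le_sqrt (by nlinarith [sq_nonneg t'])
  have hMs : √M * √M = M := Real.mul_self_sqrt hM.le
  have hMab : M ≤ a * b := by
    rw [← hMs]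
    exact mul_le_mul hMa hMb (Real.sqrt_nonneg _) hA.le
  have hba : |b - a| ≤ |t - t'| := by
    have h1 : (b - a) * (a + b) = (t' - t) * (t' + t) := by
      have : (b - a) * (a + b) = b ^ 2 - a ^ 2 := by ring
      rw [this, ha2, hb2]; ring
    have h2 : |b - a| * (a + b) = |t - t'| * |t' + t| := by
      have h3 := congrArg abs h1
      rw [abs_mul, abs_mul, abs_of_pos (by linarith : 0 < a + b), abs_sub_comm t' t] at h3
      exact h3
    have h4 : |t' + t| ≤ a + b := (abs_add_le _ _).trans (by linarith)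
    have h5 : |b - a| * (a + b) ≤ |t - t'| * (a + b) := by
      rw [h2]
      exact mul_le_mul_of_nonneg_left h4 (abs_nonneg _)
    exact le_of_mul_le_mul_right h5 (by linarith)
  have e : 1 / a - 1 / b = (b - a) / (a * b) := by
    field_simp
  rw [e, abs_div, abs_of_pos (mul_pos hA hB)]
  exact div_le_div₀ (abs_nonneg _) hba hM hMab

theorem sy_lip (β M θ θ' : ℝ) (hβ : 0 < β) (hM : 0 < M) (ξ : ℤ × ℝ) :
    ‖sy β M θ ξ - sy β M θ' ξ‖ ≤ β / M * |θ - θ'| := by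
  unfold sy
  rw [← Complex.ofReal_sub, Complex.norm_real, Real.norm_eq_abs]
  unfold ww
  have h := inv_sqrt_lip (β * ((ξ.1 : ℝ) + θ)) (β * ((ξ.1 : ℝ) + θ'))
    ((2 * Real.pi * ξ.2) ^ 2 + M) M hM (by nlinarith [sq_nonneg (2 * Real.pi * ξ.2)])
  rw [← add_assoc, ← add_assoc] at h
  refine h.trans (le_of_eq ?_)
  have e : β * ((ξ.1 : ℝ) + θ) - β * ((ξ.1 : ℝ) + θ') = β * (θ - θ') := by ring
  rw [e, abs_mul, abs_of_pos hβ]
  ring

/-- **DOP** -/
theorem t_DOP : S_DOP := by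
  intro β M hβ hM
  have hM' : 0 ≤ 1 / √M := by positivity
  refine ⟨fun θ => mop (sy β M θ) (1 / √M) (sy_meas β M θ) (sy_norm β M θ hM), ?_, ?_⟩
  · intro θ
    refine ⟨fun v => mop_ae _ _ _ _ v, mop_sa _ _ _ _ ?_, mop_inj _ _ _ _ (sy_ne β M θ hM),
      norm_mop_le _ _ _ _ hM'⟩
    intro x
    unfold sy
    exact Complex.conj_ofReal _
  · apply Continuous.continuousOn
    have hK : 0 ≤ β / M := by positivity
    have hl : LipschitzWith (Real.toNNReal (β / M)) fun θ : ℝ =>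
        (mop (sy β M θ) (1 / √M) (sy_meas β M θ) (sy_norm β M θ hM) : FF →L[ℂ] FF) := by
      refine LipschitzWith.of_dist_le_mul fun θ θ' => ?_
      rw [dist_eq_norm, Real.coe_toNNReal _ hK, Real.dist_eq]
      exact norm_mop_sub_le _ _ _ _ _ _ _ _ _ (mul_nonneg hK (abs_nonneg _))
        (fun ξ => sy_lip β M θ θ' hβ hM ξ)
    exact hl.continuous

end Pool.Agent.H597.LK
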